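import Pool.Agent.Q115.AbundMain

namespace Pool.Agent.Results.MP_02fb88_co.FamilyIffMember

open Pool.Agent.Q115.Abund

/-- A family of graphs (finite or infinite) is triangle-abundant if and only if one of its
members is a triangle-abundant graph. -/
theorem result (F : Set FG) : FamilyAbundant F ↔ ∃ H ∈ F, TriangleAbundant H := by
  constructor
  · intro h
    by_contra hcon
    push Not at hcon
    exact not_family F hcon h
  · rintro ⟨H, hH, hA⟩
    exact family_of_member F hH hA

end Pool.Agent.Results.MP_02fb88_co.FamilyIffMember
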